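import Pool.Agent.Zk60.LL.Lv

/-! # The values of the limits, for an abstract diffusion statement -/

set_option autoImplicit false
set_option linter.unusedSectionVars false

open scoped BigOperators Topology
open MeasureTheory Filter

namespace Pool.Agent.Zk71.LL

open Pool.Agent.W788.MFP.Four (T)
open Pool.Agent.Zk11.QD
open Pool.Agent.Zk60.LL.Ker Pool.Agent.Zk60.LL.Prob Pool.Agent.Zk60.LL.Det Pool.Agent.Zk60.LL.Bnd
open Pool.Agent.Zk60.LL.Phi Pool.Agent.Zk60.LL.Lv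

variable {d : ℕ}

section
variable (μ : Measure ℝ) [IsProbabilityMeasure μ] (lam : ℝ)

/-- bound for the limit at a fixed energy -/
theorem lim_K2 (η u : ℝ) (hη : 0 < η)
    (i0 : Fin d) (A : ℝ) (hA : 0 ≤ A) (M : ℕ) (hM : 0 < M) (gg hh ε2 Vv D0 : ℝ) (hD0 : 0 < D0)
    (hD : D0 ≤ hh / (4 * gg ^ 2 * Vv)) (hg : 0 ≤ gg)
    (hq : ∀ P : Fin d → ℝ, (∀ j, |P j| ≤ A * M) → ∀ G : (Zd d → ℝ) → Zd d → ℂ,
        (∀ᵐ ω ∂(PZ d μ), IsG lam ω ((u : ℂ) + η * Complex.I) (G ω)) →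
        ‖(η : ℂ) * ∑' y : Zd d, Complex.exp (((∑ j, lam * Real.sqrt η * P j * y j : ℝ) : ℂ) *
          Complex.I) * ((∫ ω, ‖G ω y‖ ^ 2 ∂(PZ d μ) : ℝ) : ℂ) -
          ((gg / (1 + hh / (4 * gg ^ 2 * Vv) *
            ∑ j, P j ^ 2) : ℝ) : ℂ)‖ ≤ ε2) :
    ∃ l : ℝ, Tendsto (fun h : ℕ => hv μ (KT (d := d) (2 * h + 1) M
      (th i0 (lam * Real.sqrt η) A M)) η lam u) atTop (𝓝 l) ∧
      η * l ≤ gg * (1 / M + 1 / (1 + D0 * A ^ 2)) + ε2 := by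
  have hz : 0 < ((u : ℂ) + η * Complex.I).im := by simpa using hη
  choose G hG using fun ω : Zd d → ℝ => isG_exists lam ω ((u : ℂ) + η * Complex.I) hz
  have hGae : ∀ᵐ ω ∂(PZ d μ), IsG lam ω ((u : ℂ) + η * Complex.I) (G ω) := Eventually.of_forall hG
  set θ := th i0 (lam * Real.sqrt η) A M with hθ
  refine ⟨_, hv_lim_K μ lam M hM θ η u hη G hGae, ?_⟩
  rw [← Complex.re_ofReal_mul, lim_val' μ lam M θ η u hη G hGae, Complex.re_sum]
  have hM0 : (0 : ℝ) < M := by exact_mod_cast hM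
  set g := gg with hgdef
  set D := hh / (4 * g ^ 2 * Vv) with hDdef
  have h1 : ∀ q : Fin M × Fin M, ((((1 / (M : ℝ) ^ 2 : ℝ)) : ℂ) * ((η : ℂ) * ∑' y : Zd d,
        Complex.exp (((∑ j, (θ q.1 j - θ q.2 j) * y j : ℝ) : ℂ) * Complex.I) *
          ((∫ ω, ‖G ω y‖ ^ 2 ∂(PZ d μ) : ℝ) : ℂ))).re ≤
      1 / (M : ℝ) ^ 2 * (g / (1 + D * (A ^ 2 * (((q.1 : ℕ) : ℝ) - ((q.2 : ℕ) : ℝ)) ^ 2)) + ε2) := by
    intro q
    rw [Complex.re_ofReal_mul]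
    refine mul_le_mul_of_nonneg_left ?_ (by positivity)
    have h2 := hq (PP i0 A M q) (PP_le i0 A hA M q) G hGae
    rw [PP_sq] at h2
    have h3 : ∀ y : Zd d, ∑ j, lam * Real.sqrt η * PP i0 A M q j * (y j : ℝ) =
        ∑ j, (θ q.1 j - θ q.2 j) * (y j : ℝ) := by
      intro y
      refine Finset.sum_congr rfl fun j _ => ?_
      rw [hθ, th_sub]
    simp only [h3] at h2
    have h4 := (abs_le.1 ((Complex.abs_re_le_norm _).trans h2)).2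
    rw [Complex.sub_re, Complex.ofReal_re] at h4
    linarith
  have h3 := pair_sum M hM g D D0 A hg hD0 hD
  have h4 : ∑ q : Fin M × Fin M, 1 / (M : ℝ) ^ 2 *
      (g / (1 + D * (A ^ 2 * (((q.1 : ℕ) : ℝ) - ((q.2 : ℕ) : ℝ)) ^ 2)) + ε2) =
      (∑ q : Fin M × Fin M, 1 / (M : ℝ) ^ 2 *
      (g / (1 + D * (A ^ 2 * (((q.1 : ℕ) : ℝ) - ((q.2 : ℕ) : ℝ)) ^ 2)))) + ε2 := by
    simp only [mul_add, Finset.sum_add_distrib]
    congr 1
    rw [Finset.sum_const, Finset.card_univ, Fintype.card_prod, Fintype.card_fin, nsmul_eq_mul]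
    push_cast
    field_simp
  have h5 := Finset.sum_le_sum fun q (_ : q ∈ (Finset.univ : Finset (Fin M × Fin M))) => h1 q
  rw [h4] at h5
  linarith

theorem lim_12 (η u : ℝ) (hη : 0 < η) (gg hh ε2 Vv R : ℝ) (hR : 0 ≤ R)
    (hq : ∀ P : Fin d → ℝ, (∀ j, |P j| ≤ R) → ∀ G : (Zd d → ℝ) → Zd d → ℂ,
        (∀ᵐ ω ∂(PZ d μ), IsG lam ω ((u : ℂ) + η * Complex.I) (G ω)) →
        ‖(η : ℂ) * ∑' y : Zd d, Complex.exp (((∑ j, lam * Real.sqrt η * P j * y j : ℝ) : ℂ) *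
          Complex.I) * ((∫ ω, ‖G ω y‖ ^ 2 ∂(PZ d μ) : ℝ) : ℂ) -
          ((gg / (1 + hh / (4 * gg ^ 2 * Vv) *
            ∑ j, P j ^ 2) : ℝ) : ℂ)‖ ≤ ε2) :
    ∃ l : ℝ, Tendsto (fun h : ℕ => hv μ (fun _ : T d (2 * h + 1) => (1 : ℝ)) η lam u) atTop
      (𝓝 l) ∧ |η * l - gg| ≤ ε2 := by
  have hz : 0 < ((u : ℂ) + η * Complex.I).im := by simpa using hη
  choose G hG using fun ω : Zd d → ℝ => isG_exists lam ω ((u : ℂ) + η * Complex.I) hz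
  have hGae : ∀ᵐ ω ∂(PZ d μ), IsG lam ω ((u : ℂ) + η * Complex.I) (G ω) := Eventually.of_forall hG
  refine ⟨_, hv_lim_1 μ lam η u hη G hGae, ?_⟩
  have h3 := hq (fun _ => 0) (fun j => by simpa using hR) G hGae
  simp only [mul_zero, zero_mul, Finset.sum_const_zero, Complex.ofReal_zero, Complex.exp_zero,
    one_mul, ne_eq, OfNat.ofNat_ne_zero, not_false_eq_true, zero_pow, add_zero, div_one] at h3
  have h4 := (Complex.abs_re_le_norm _).trans h3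
  rw [Complex.sub_re, Complex.ofReal_re, Complex.re_ofReal_mul] at h4
  exact h4

end

end Pool.Agent.Zk71.LL
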