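import Pool.Agent.Zk71.LL.Win2
import Pool.Agent.Zk71.D2.GenA

/-! # Localization lengths in two dimensions -/

set_option autoImplicit false
set_option linter.unusedSectionVars false

open scoped BigOperators Topology
open MeasureTheory Filter

namespace Pool.Agent.Zk71.LL

open Pool.Agent.W788.MFP.Four (T NN NN_pos card_T)
open Pool.Agent.Zk11.QD
open Pool.Agent.Zk71.D2
open Pool.Agent.Zk60.LL.Rar
open Pool.Agent.Zk60.LL.Det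

theorem qdif2 (F1 F2 : ℝ) (h12 : F1 ≤ F2) (hO : Ok F1 F2) :
    QDif 2 F1 F2 (1 / 3) (fun u => (g2 u).im) (fun u => (h2 u).im) := by
  intro b v0 hv0 κ hκ0 hκ1 R ε hε
  exact gen2 F1 F2 h12 hO b v0 hv0 κ hκ0 hκ1 R ε hε

theorem bulk2 (F1 F2 : ℝ) (h12 : F1 ≤ F2) (hO : Ok F1 F2) :
    ∃ C0 gm hm : ℝ, 0 < C0 ∧ 0 < gm ∧ 0 < hm ∧ ∀ u ∈ Set.Icc F1 F2,
      gm ≤ (g2 u).im ∧ (g2 u).im ≤ C0 ∧ hm ≤ (h2 u).im := by
  obtain ⟨r, C, hb⟩ := bv2 F1 F2 h12 hO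
  have hhc : ContinuousOn (fun u : ℝ => (h2 u).im) (Set.Icc F1 F2) :=
    Complex.continuous_im.comp_continuousOn hb.ch
  have hgc : ContinuousOn (fun u : ℝ => (g2 u).im) (Set.Icc F1 F2) :=
    Complex.continuous_im.comp_continuousOn hb.cg
  obtain ⟨u0, hu0, hmin⟩ := (isCompact_Icc (a := F1) (b := F2)).exists_isMinOn
    ⟨F1, le_rfl, h12⟩ hhc
  obtain ⟨u1, hu1, hmin1⟩ := (isCompact_Icc (a := F1) (b := F2)).exists_isMinOn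
    ⟨F1, le_rfl, h12⟩ hgc
  obtain ⟨u2, hu2, hmax⟩ := (isCompact_Icc (a := F1) (b := F2)).exists_isMaxOn
    ⟨F1, le_rfl, h12⟩ hgc
  exact ⟨(g2 u2).im, (g2 u1).im, (h2 u0).im, g2_pos u2 (hO.pt u2 hu2.1 hu2.2),
    g2_pos u1 (hO.pt u1 hu1.1 hu1.2), h2_pos u0 (hO.pt u0 hu0.1 hu0.2),
    fun u hu => ⟨hmin1 hu, hmax hu, hmin hu⟩⟩

/-- **Windows of energies** in two dimensions. -/
theorem windows2 (E1 E2 : ℝ) (hE12 : E1 < E2) (hO : Ok E1 E2) :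
    ∃ c0 : ℝ, 0 < c0 ∧ ∀ b v0 β γ c ε : ℝ, 0 < v0 → β < 13 / 6 → γ < 7 / 3 →
      0 < c → 0 < ε →
    ∃ l0 : ℝ, 0 < l0 ∧ ∀ (μ : Measure ℝ) [IsProbabilityMeasure μ], (∀ᵐ s ∂μ, |s| ≤ b) →
      v0 ≤ ∫ s, (s - ∫ t, t ∂μ) ^ 2 ∂μ → ∀ lam : ℝ, 0 < lam → lam < l0 →
      ∃ Bad : ∀ h : ℕ, Set (T 2 (2 * h + 1) → ℝ), Rare μ Bad ∧ (∀ h, MeasurableSet (Bad h)) ∧
        ∀ᶠ h : ℕ in atTop, ∀ V, V ∉ Bad h →
          ∀ (ψ : T 2 (2 * h + 1) → T 2 (2 * h + 1) → ℂ) (E : T 2 (2 * h + 1) → ℝ), EB lam V ψ E →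
          ∀ s t : ℝ, E1 ≤ s → t ≤ E2 → lam ^ γ ≤ t - s →
            c0 * (t - s) * (Fintype.card (T 2 (2 * h + 1)) : ℝ) ≤
              ((Finset.univ.filter fun j => s ≤ E j ∧ E j ≤ t).card : ℝ) ∧
            ∀ J : Finset (T 2 (2 * h + 1)), (∀ j ∈ J, s ≤ E j ∧ E j ≤ t ∧
              ∃ (B : Finset (T 2 (2 * h + 1))) (y0 : T 2 (2 * h + 1)),
                (∀ x ∈ B, ∀ i, |((x - y0) i).valMinAbs| ≤ lam ^ (-β)) ∧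
                  c ≤ ∑ x ∈ B, ‖ψ j x‖ ^ 2) →
              (J.card : ℝ) ≤ ε *
                ((Finset.univ.filter fun j => s ≤ E j ∧ E j ≤ t).card : ℝ) := by
  obtain ⟨F1, F2, h1, h2', hO'⟩ : ∃ F1 F2 : ℝ, F1 < E1 ∧ E2 < F2 ∧ Ok F1 F2 := by
    rcases hO with ⟨a1, a2⟩ | ⟨a1, a2⟩
    · exact ⟨E1 / 2, (E2 + 4) / 2, by linarith, by linarith, Or.inl ⟨by linarith, by linarith⟩⟩
    · exact ⟨(E1 + 4) / 2, (E2 + 8) / 2, by linarith, by linarith,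
        Or.inr ⟨by linarith, by linarith⟩⟩
  obtain ⟨C0, gm, hm, hC0, hgm, hhm, hbulk⟩ := bulk2 F1 F2 (by linarith) hO'
  obtain ⟨c0, hc0, hw⟩ := windows (by norm_num) F1 F2 E1 E2 (1 / 3) (fun u => (g2 u).im)
    (fun u => (h2 u).im) (qdif2 F1 F2 (by linarith) hO') (by norm_num) (by norm_num) h1 h2' hE12
    C0 gm hm hC0 hgm hhm hbulk
  refine ⟨c0, hc0, ?_⟩
  intro b v0 β γ c ε hv0 hβ hγ hc hε
  exact hw b v0 β γ c ε hv0 (by linarith) (by linarith) hc hε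

end Pool.Agent.Zk71.LL
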