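import Pool.Agent.Zk71.LL.Lv2
import Pool.Agent.Zk60.LL.Wfin

/-! # Localization lengths in small windows of energies, for an abstract diffusion statement -/

set_option autoImplicit false
set_option linter.unusedSectionVars false

open scoped BigOperators Topology
open MeasureTheory Filter

namespace Pool.Agent.Zk71.LL

open Pool.Agent.W788.MFP.Four (T NN NN_pos card_T)
open Pool.Agent.Zk11.QD
open Pool.Agent.Zk60.LL.Ker Pool.Agent.Zk60.LL.Prob Pool.Agent.Zk60.LL.Det Pool.Agent.Zk60.LL.Bnd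
open Pool.Agent.Zk60.LL.Phi Pool.Agent.Zk60.LL.Lv Pool.Agent.Zk60.LL.Win Pool.Agent.Zk60.LL.Rar
open Pool.Agent.Zk60.LL.Wdt Pool.Agent.Zk60.LL.Fin Pool.Agent.Zk60.LL.Wfin

variable {d : ℕ}

/-- quantum diffusion on `[F1, F2]` with the functions `g`, `h`, up to the exponent `κm` -/
def QDif (d : ℕ) (F1 F2 κm : ℝ) (g hh : ℝ → ℝ) : Prop :=
  ∀ b v0 : ℝ, 0 < v0 → ∀ κ : ℝ, 0 < κ → κ < κm → ∀ R ε : ℝ, 0 < ε →
    ∃ δ : ℝ, 0 < δ ∧ ∀ (μ : Measure ℝ) [IsProbabilityMeasure μ], (∀ᵐ s ∂μ, |s| ≤ b) →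
      ∀ V : ℝ, V = ∫ s, (s - ∫ t, t ∂μ) ^ 2 ∂μ → v0 ≤ V → ∀ E : ℝ, F1 ≤ E → E ≤ F2 →
      ∀ P : Fin d → ℝ, (∀ j, |P j| ≤ R) →
      ∀ lam η : ℝ, 0 < lam → lam < δ → lam ^ (2 + κ) ≤ η → η ≤ δ * lam ^ 2 →
      ∀ G : (Zd d → ℝ) → Zd d → ℂ,
        (∀ᵐ ω ∂(PZ d μ), IsG lam ω ((E : ℂ) + η * Complex.I) (G ω)) →
        ‖(η : ℂ) * ∑' y : Zd d, Complex.exp (((∑ j, lam * Real.sqrt η * P j * y j : ℝ) : ℂ) *
          Complex.I) * ((∫ ω, ‖G ω y‖ ^ 2 ∂(PZ d μ) : ℝ) : ℂ) -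
          ((g E / (1 + hh E / (4 * g E ^ 2 * V) * ∑ j, P j ^ 2) : ℝ) : ℂ)‖ ≤ ε

set_option maxHeartbeats 2000000 in
/-- **Windows of energies**, from a diffusion statement. -/
theorem windows (hd : 1 ≤ d) (F1 F2 E1 E2 κm : ℝ) (g hh : ℝ → ℝ) (hQ : QDif d F1 F2 κm g hh)
    (hκm0 : 0 < κm) (hκm1 : κm ≤ 2)
    (h1F : F1 < E1) (h2F : E2 < F2) (hE12 : E1 < E2)
    (C0 gm hm : ℝ) (hC0 : 0 < C0) (hgm : 0 < gm) (hhm : 0 < hm)
    (hbulk : ∀ u ∈ Set.Icc F1 F2, gm ≤ g u ∧ g u ≤ C0 ∧ hm ≤ hh u) :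
    ∃ c0 : ℝ, 0 < c0 ∧ ∀ b v0 β γ c ε : ℝ, 0 < v0 → β < 2 + κm / 2 → γ < 2 + κm →
      0 < c → 0 < ε →
    ∃ l0 : ℝ, 0 < l0 ∧ ∀ (μ : Measure ℝ) [IsProbabilityMeasure μ], (∀ᵐ s ∂μ, |s| ≤ b) →
      v0 ≤ ∫ s, (s - ∫ t, t ∂μ) ^ 2 ∂μ → ∀ lam : ℝ, 0 < lam → lam < l0 →
      ∃ Bad : ∀ h : ℕ, Set (T d (2 * h + 1) → ℝ), Rare μ Bad ∧ (∀ h, MeasurableSet (Bad h)) ∧
        ∀ᶠ h : ℕ in atTop, ∀ V, V ∉ Bad h →
          ∀ (ψ : T d (2 * h + 1) → T d (2 * h + 1) → ℂ) (E : T d (2 * h + 1) → ℝ), EB lam V ψ E →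
          ∀ s t : ℝ, E1 ≤ s → t ≤ E2 → lam ^ γ ≤ t - s →
            c0 * (t - s) * (Fintype.card (T d (2 * h + 1)) : ℝ) ≤
              ((Finset.univ.filter fun j => s ≤ E j ∧ E j ≤ t).card : ℝ) ∧
            ∀ J : Finset (T d (2 * h + 1)), (∀ j ∈ J, s ≤ E j ∧ E j ≤ t ∧
              ∃ (B : Finset (T d (2 * h + 1))) (y0 : T d (2 * h + 1)),
                (∀ x ∈ B, ∀ i, |((x - y0) i).valMinAbs| ≤ lam ^ (-β)) ∧
                  c ≤ ∑ x ∈ B, ‖ψ j x‖ ^ 2) →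
              (J.card : ℝ) ≤ ε *
                ((Finset.univ.filter fun j => s ≤ E j ∧ E j ≤ t).card : ℝ) := by
  have hpi := Real.pi_pos
  have hd0 : (0 : ℝ) < d := by exact_mod_cast (by omega : 0 < d)
  set r0 : ℝ := min (E1 - F1) (F2 - E2) with hr0
  have hr0pos : 0 < r0 := lt_min (by linarith) (by linarith)
  have hr01 : r0 ≤ E1 - F1 := min_le_left _ _
  have hr02 : r0 ≤ F2 - E2 := min_le_right _ _
  set r : ℝ := r0 / 2 with hr
  have hrpos : 0 < r := by positivity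
  refine ⟨gm / (16 * Real.pi), by positivity, ?_⟩
  intro b v0 β γ c ε hv0 hβ hγ hc hε
  set c1 : ℝ := gm / (4 * Real.pi) with hc1
  have hc1pos : 0 < c1 := by positivity
  set ε' : ℝ := ε * c1 / 2 with hε'
  have hε'pos : 0 < ε' := by positivity
  set x5 : ℝ := ε' * c ^ 2 / 1152 with hx5
  have hx5pos : 0 < x5 := by positivity
  set VM : ℝ := 4 * b ^ 2 + 1 with hVM
  have hVM0 : 0 < VM := by positivity
  set D0 : ℝ := hm / (4 * C0 ^ 2 * VM) with hD0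
  have hD0pos : 0 < D0 := by positivity
  obtain ⟨A, M, hA, hM, hAM⟩ := choose_AM C0 D0 (x5 / 2) hC0 hD0pos (by positivity)
  set ε2 : ℝ := min (x5 / 2) (min 1 (gm / 4)) with hε2
  have hε20 : 0 < ε2 := lt_min (by positivity) (lt_min one_pos (by positivity))
  have hε21 : ε2 ≤ x5 / 2 := min_le_left _ _
  have hε22 : ε2 ≤ 1 := (min_le_right _ _).trans (min_le_left _ _)
  have hε23 : ε2 ≤ gm / 4 := (min_le_right _ _).trans (min_le_right _ _)
  set g' : ℝ := (max γ 2 + (2 + κm)) / 2 with hg'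
  have hg'1 : γ < g' := by
    rw [hg']; linarith [le_max_left γ 2]
  have hg'2 : 2 < g' := by
    rw [hg']; linarith [le_max_right γ 2]
  have hg'3 : g' < 2 + κm := by
    rw [hg']; linarith [max_lt hγ (by linarith : (2 : ℝ) < 2 + κm)]
  set κ : ℝ := (max (g' - 2) (2 * (β - 2)) + κm) / 2 with hκ
  have hκm : max (g' - 2) (2 * (β - 2)) < κm := max_lt (by linarith) (by linarith)
  have hκ1 : κ < κm := by rw [hκ]; linarith
  have hκ2 : g' - 2 < κ := by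
    rw [hκ]; linarith [le_max_left (g' - 2) (2 * (β - 2))]
  have hκ3 : 2 * (β - 2) < κ := by
    rw [hκ]; linarith [le_max_right (g' - 2) (2 * (β - 2))]
  have hκ0 : 0 < κ := by linarith
  obtain ⟨δ, hδ, hfin⟩ := hQ b v0 hv0 κ hκ0 hκ1 (A * M) ε2 hε20
  have hM0 : (0 : ℝ) < M := by exact_mod_cast hM
  obtain ⟨l1, hl1, hl1'⟩ := small_rpow κ δ hκ0 hδ
  obtain ⟨l2, hl2, hl2'⟩ := small_rpow (g' - 2) δ (by linarith) hδ
  set m3 : ℝ := min (1 / 2) (min (gm / (32 * (C0 + 2))) (ε' * c ^ 2 / (72 * (C0 + 2)))) with hm3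
  have hm30 : 0 < m3 := lt_min (by norm_num) (lt_min (by positivity) (by positivity))
  obtain ⟨l3, hl3, hl3'⟩ := small_rpow (2 + κ - g') m3 (by linarith) hm30
  set m4 : ℝ := min (ε' * c ^ 2 * r ^ 2 / 288) (r0 / 4) with hm4
  have hm40 : 0 < m4 := lt_min (by positivity) (by positivity)
  obtain ⟨l4, hl4, hl4'⟩ := small_rpow g' m4 (by linarith) hm40
  obtain ⟨l5, hl5, hl5'⟩ := small_rpow (g' - γ) (1 / 16) (by linarith) (by norm_num)
  obtain ⟨l6, hl6, hl6'⟩ := small_rpow (2 + κ / 2 - β) (1 / (16 * (d * (A * M + 1))))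
    (by linarith) (by positivity)
  refine ⟨min δ (min 1 (min l1 (min l2 (min l3 (min l4 (min l5 l6)))))), by
    simp only [lt_min_iff]
    exact ⟨hδ, one_pos, hl1, hl2, hl3, hl4, hl5, hl6⟩, ?_⟩
  intro μ _ hb hv lam hlam0 hlam
  simp only [lt_min_iff] at hlam
  obtain ⟨q0, q1, q2, q3, q4, q5, q6, q7⟩ := hlam
  set i0 : Fin d := ⟨0, by omega⟩ with hi0
  set η : ℝ := lam ^ (2 + κ) with hη
  set w : ℝ := lam ^ g' with hw
  have hη0 : 0 < η := Real.rpow_pos_of_pos hlam0 _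
  have hw0 : 0 < w := Real.rpow_pos_of_pos hlam0 _
  have hηδ : η ≤ δ * lam ^ 2 := by
    rw [hη, Real.rpow_add hlam0, Real.rpow_two, mul_comm]
    exact mul_le_mul_of_nonneg_right (hl1' lam hlam0 q2) (by positivity)
  have hwδ : w ≤ δ * lam ^ 2 := by
    have : w = lam ^ (g' - 2) * lam ^ 2 := by
      rw [hw, ← Real.rpow_two, ← Real.rpow_add hlam0]
      congr 1
      ring
    rw [this]
    exact mul_le_mul_of_nonneg_right (hl2' lam hlam0 q3) (by positivity)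
  have hηw : η = w * lam ^ (2 + κ - g') := by
    rw [hη, hw, ← Real.rpow_add hlam0]
    congr 1
    ring
  have hm3' := hl3' lam hlam0 q4
  have hηw1 : η ≤ w / 2 := by
    rw [hηw]
    have := mul_le_mul_of_nonneg_left (hm3'.trans (min_le_left _ _)) hw0.le
    linarith
  have hηw3 : η * (32 * (C0 + 2)) ≤ gm * w := by
    have h1 := hm3'.trans ((min_le_right _ _).trans (min_le_left _ _))
    rw [le_div_iff₀ (by positivity)] at h1
    have := mul_le_mul_of_nonneg_left h1 hw0.le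
    rw [hηw]
    linarith
  have hηw2 : η * (72 * (C0 + 2)) ≤ ε' * c ^ 2 * w := by
    have h1 := hm3'.trans ((min_le_right _ _).trans (min_le_right _ _))
    rw [le_div_iff₀ (by positivity)] at h1
    have := mul_le_mul_of_nonneg_left h1 hw0.le
    rw [hηw]
    linarith
  have hηlew : η ≤ w := by linarith
  have hm4' := hl4' lam hlam0 q5
  have hwr : w * 288 ≤ ε' * c ^ 2 * r ^ 2 := by
    have h1 := hm4'.trans (min_le_left _ _)
    rw [le_div_iff₀ (by norm_num)] at h1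
    exact h1
  have hwr0 : w ≤ r0 / 4 := hm4'.trans (min_le_right _ _)
  have hwγ : 16 * w ≤ lam ^ γ := by
    have h1 : w = lam ^ (g' - γ) * lam ^ γ := by
      rw [hw, ← Real.rpow_add hlam0]
      congr 1
      ring
    rw [h1]
    have := mul_le_mul_of_nonneg_right (hl5' lam hlam0 q6) (Real.rpow_nonneg hlam0.le γ)
    linarith
  have hsq : lam * Real.sqrt η = lam ^ (2 + κ / 2) := by
    rw [hη, Real.sqrt_eq_rpow, ← Real.rpow_mul hlam0.le]
    have : lam * lam ^ ((2 + κ) * (1 / 2)) = lam ^ (1 : ℝ) * lam ^ ((2 + κ) * (1 / 2)) := by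
      rw [Real.rpow_one]
    rw [this, ← Real.rpow_add hlam0]
    congr 1
    ring
  have hR0 : 0 < lam ^ (-β) := Real.rpow_pos_of_pos hlam0 _
  have hsmall : 2 * (d * (lam * Real.sqrt η * (A * M) * lam ^ (-β))) ≤ 1 / 8 := by
    have h1 := hl6' lam hlam0 q7
    have h2 : lam * Real.sqrt η * lam ^ (-β) = lam ^ (2 + κ / 2 - β) := by
      rw [hsq, ← Real.rpow_add hlam0]
      congr 1
    have h3 : 2 * (d * (lam * Real.sqrt η * (A * M) * lam ^ (-β))) =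
        2 * (d * (A * M)) * (lam * Real.sqrt η * lam ^ (-β)) := by ring
    rw [h3, h2]
    have h4 : 2 * (d * (A * M)) * lam ^ (2 + κ / 2 - β) ≤
        2 * (d * (A * M + 1)) * (1 / (16 * (d * (A * M + 1)))) := by
      apply mul_le_mul _ h1 (Real.rpow_nonneg hlam0.le _) (by positivity)
      have : (d : ℝ) * (A * M) ≤ d * (A * M + 1) := mul_le_mul_of_nonneg_left (by linarith) hd0.le
      linarith
    refine h4.trans (le_of_eq ?_)
    have : (d : ℝ) * (A * M + 1) ≠ 0 := by positivity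
    field_simp
    norm_num
  -- the limits
  set Vv : ℝ := ∫ s, (s - ∫ t, t ∂μ) ^ 2 ∂μ with hVv
  have hVv0 : 0 < Vv := lt_of_lt_of_le hv0 hv
  have hVle : Vv ≤ VM := (var_le μ b hb).trans (by linarith)
  have hpar : Par d μ lam η w F1 F2 C0 gm x5 A M i0 := by
    refine ⟨hη0, hw0, hM, hA, ?_, ?_, ?_⟩
    · intro u hu
      obtain ⟨g1, g2, g3⟩ := hbulk u hu
      have hgp : 0 < (g u) := hgm.trans_le g1
      obtain ⟨l, hl, hl'⟩ := lim_K2 μ lam η u hη0 i0 A hA M hM (g u) (hh u) ε2 Vv D0 hD0pos (by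
        rw [hD0]
        apply div_le_div₀ (hhm.le.trans g3) g3 (by positivity)
        have h1 : (g u) ^ 2 ≤ C0 ^ 2 := pow_le_pow_left₀ hgp.le g2 2
        calc 4 * (g u) ^ 2 * Vv ≤ 4 * C0 ^ 2 * Vv :=
              mul_le_mul_of_nonneg_right (by linarith) hVv0.le
          _ ≤ 4 * C0 ^ 2 * VM := mul_le_mul_of_nonneg_left hVle (by positivity)) hgp.le
        (fun P hP G hG => hfin μ hb Vv hVv hv u hu.1 hu.2 P hP lam η hlam0 q0 le_rfl hηδ G hG)
      refine ⟨l, hl, hl'.trans ?_⟩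
      have h2 : (g u) * (1 / M + 1 / (1 + D0 * A ^ 2)) ≤
          C0 * (1 / M + 1 / (1 + D0 * A ^ 2)) := mul_le_mul_of_nonneg_right g2 (by positivity)
      linarith
    · intro u hu
      obtain ⟨g1, g2, g3⟩ := hbulk u hu
      obtain ⟨l, hl, hl'⟩ := lim_12 μ lam η u hη0 (g u) (hh u) ε2 Vv (A * M) (by positivity)
        (fun P hP G hG => hfin μ hb Vv hVv hv u hu.1 hu.2 P hP lam η hlam0 q0 le_rfl hηδ G hG)
      refine ⟨l, hl, ?_⟩
      have := (abs_le.1 hl').1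
      linarith
    · intro u hu
      obtain ⟨g1, g2, g3⟩ := hbulk u hu
      obtain ⟨l, hl, hl'⟩ := lim_12 μ lam w u hw0 (g u) (hh u) ε2 Vv (A * M) (by positivity)
        (fun P hP G hG => hfin μ hb Vv hVv hv u hu.1 hu.2 P hP lam w hlam0 q0 hηlew hwδ G hG)
      refine ⟨l, hl, ?_⟩
      have := (abs_le.1 hl').2
      linarith
  -- the bad event
  set I : Finset ℤ := Finset.Icc ⌊E1 / (2 * w)⌋ ⌊E2 / (2 * w)⌋ with hI
  have hcen : ∀ i ∈ I, F1 + r ≤ (2 * i + 1) * w ∧ (2 * i + 1) * w + r ≤ F2 := by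
    intro i hi
    obtain ⟨h1, h2⟩ := Finset.mem_Icc.1 hi
    have h3 : (i : ℝ) ≤ E2 / (2 * w) := (Int.cast_le.2 h2).trans (Int.floor_le _)
    have h4 : E1 / (2 * w) < (i : ℝ) + 1 :=
      (Int.lt_floor_add_one _).trans_le (by exact_mod_cast Int.add_le_add_right h1 1)
    rw [le_div_iff₀ (by positivity)] at h3
    rw [div_lt_iff₀ (by positivity)] at h4
    constructor
    · rw [hr]; linarith
    · rw [hr]; linarith
  refine ⟨fun h => ⋃ i ∈ I, BadW lam η w F1 F2 C0 gm x5 A M i0 ((2 * (i : ℝ) + 1) * w) h, ?_, ?_, ?_⟩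
  · refine Rare.biUnion (by omega) I
      (fun i h => BadW lam η w F1 F2 C0 gm x5 A M i0 ((2 * (i : ℝ) + 1) * w) h) fun i hi => ?_
    obtain ⟨h1, h2⟩ := hcen i hi
    exact BadW_rare (by omega) μ b hb lam η w F1 F2 C0 gm x5 A M i0 hpar hgm hx5pos _
      (by rw [hr] at h1; linarith) (by rw [hr] at h2; linarith)
  · intro h
    exact Finset.measurableSet_biUnion I fun i _ =>
      BadW_meas lam η w F1 F2 C0 gm x5 A hη0 hw0 M i0 _ h
  · obtain ⟨H2, hH2⟩ := exists_nat_gt (32 * d * Real.pi * lam ^ (-β))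
    filter_upwards [eventually_ge_atTop H2] with h hh V hV ψ E hE s t hs ht hst
    have hh2 : (H2 : ℝ) ≤ h := by exact_mod_cast hh
    have hcube : 2 * (d * ((lam * Real.sqrt η * (A * M) + 2 * Real.pi / ((2 * h + 1 : ℕ) : ℝ)) *
        lam ^ (-β))) ≤ 1 / 4 := by
      have hL : (0 : ℝ) < ((2 * h + 1 : ℕ) : ℝ) := by positivity
      have h1 : 2 * (d * (2 * Real.pi / ((2 * h + 1 : ℕ) : ℝ) * lam ^ (-β))) ≤ 1 / 8 := by
        have h2 : 2 * (d * (2 * Real.pi / ((2 * h + 1 : ℕ) : ℝ) * lam ^ (-β))) =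
            4 * d * Real.pi * lam ^ (-β) / ((2 * h + 1 : ℕ) : ℝ) := by ring
        rw [h2, div_le_iff₀ hL]
        push_cast
        linarith
      have h3 : 2 * (d * ((lam * Real.sqrt η * (A * M) + 2 * Real.pi / ((2 * h + 1 : ℕ) : ℝ)) *
        lam ^ (-β))) = 2 * (d * (lam * Real.sqrt η * (A * M) * lam ^ (-β))) +
          2 * (d * (2 * Real.pi / ((2 * h + 1 : ℕ) : ℝ) * lam ^ (-β))) := by ring
      rw [h3]
      linarith
    have hball : ∀ y0 x y : T d (2 * h + 1), (∀ i, |((x - y0) i).valMinAbs| ≤ lam ^ (-β)) →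
        (∀ i, |((y - y0) i).valMinAbs| ≤ lam ^ (-β)) →
        1 / 2 ≤ KT (2 * h + 1) M (th i0 (lam * Real.sqrt η) A M) (x - y) := fun y0 x y hx hy =>
      KT_large (2 * h + 1) M hM (th i0 (lam * Real.sqrt η) A M) (lam * Real.sqrt η * (A * M))
        (lam ^ (-β)) (fun m j => th_le i0 _ A (by positivity) hA M m j) hR0.le hcube y0 x y hx hy
    set N : ℝ := (Fintype.card (T d (2 * h + 1)) : ℝ) with hN
    have hN0 : 0 ≤ N := by rw [hN]; positivity
    have hwin : ∀ i : ℤ, ⌊s / (2 * w)⌋ ≤ i → i ≤ ⌊t / (2 * w)⌋ → _ := fun i hi1 hi2 => by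
      have hiI : i ∈ I := by
        rw [hI, Finset.mem_Icc]
        constructor
        · exact (Int.floor_le_floor (div_le_div_of_nonneg_right hs (by positivity))).trans hi1
        · exact hi2.trans (Int.floor_le_floor (div_le_div_of_nonneg_right ht (by positivity)))
      have hVi : V ∉ BadW lam η w F1 F2 C0 gm x5 A M i0 ((2 * (i : ℝ) + 1) * w) h := by
        intro hbad
        exact hV (Set.mem_biUnion hiI hbad)
      obtain ⟨h1, h2⟩ := hcen i hiI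
      exact good_window hη0 hw0 hM hVi hE r c (lam ^ (-β)) ε' hrpos hc h1 h2 hgm hC0 hx5
        hηw1 hηw2 hηw3 hwr hball
    have hcov := cover E w s t hw0 (hwγ.trans hst)
      (fun j => ∃ (B : Finset (T d (2 * h + 1))) (y0 : T d (2 * h + 1)),
        (∀ x ∈ B, ∀ i, |((x - y0) i).valMinAbs| ≤ lam ^ (-β)) ∧ c ≤ ∑ x ∈ B, ‖ψ j x‖ ^ 2)
      (ε' * w * N) (c1 * w * N) (by positivity)
      (fun i hi1 hi2 => (hwin i hi1 hi2).1) (fun i hi1 hi2 => (hwin i hi1 hi2).2)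
    refine ⟨?_, fun J hJ => hcov.1 J hJ ε hε.le (le_of_eq (by rw [hε']; ring))⟩
    have h1 := hcov.2 (by positivity)
    refine le_trans (le_of_eq ?_) h1
    rw [hc1]
    field_simp
    ring

end Pool.Agent.Zk71.LL
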